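import Pool.Agent.H.MP_32446a_an.C

set_option autoImplicit false
open Filter Topology ZeroAtInfty

namespace Pool.Agent.Results.MP_32446a_an.No
open Pool.Agent.H.MP_32446a_an

theorem result : ∃ T : C₀(ℤ, ℝ) →L[ℝ] C₀(ℤ, ℝ), IsCompactOperator T ∧ DenseRange T ∧
    (∃ x, Dense (toWeakSpace ℝ C₀(ℤ, ℝ) '' {y | ∃ (c : ℝ) (n : ℕ), y = c • (T ^ n) x})) ∧
    ∀ x, ¬ Dense {y | ∃ (c : ℝ) (n : ℕ), y = c • (T ^ n) x} := by
  obtain ⟨x, h⟩ := wk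
  refine ⟨T, W_compact _, T_dense, ⟨x, fun v => mem_closure_iff_nhds.2 fun U hU => ?_⟩, notsc⟩
  obtain ⟨V, hV, hU⟩ := (mem_nhds_induced
    (fun (x : WeakSpace ℝ B) (f : B →L[ℝ] ℝ) => (topDualPairing ℝ B).flip x f) v U).1 hU
  rw [nhds_pi] at hV
  obtain ⟨I, t, ht, hI⟩ := mem_pi'.1 hV
  obtain ⟨ε, e, e0⟩ := ((((eventually_all_finset I).2 fun f _ =>
    eventually_closedBall_subset (ht f)).filter_mono nhdsWithin_le_nhds).and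
    (self_mem_nhdsWithin (s := Set.Ioi (0 : ℝ)))).exists
  obtain ⟨c, n, H⟩ := h v I ε e0
  exact ⟨_, hU (hI fun f hf => e f hf (H f hf)), _, ⟨c, n, rfl⟩, rfl⟩

end Pool.Agent.Results.MP_32446a_an.No
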